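import Pool.Agent.H.MP_793ea6_al.M

namespace Pool.Agent.Results.MP_793ea6_al.FiniteRep

/-- colours `a = 0`, `b = 1`, `c = 2`; the forbidden cycles are `ccc`, `bcc`, `bbc`. -/
def Forbidden (x y z : Fin 3) : Prop :=
  ({x, y, z} : Multiset (Fin 3)) = {2, 2, 2} ∨ ({x, y, z} : Multiset (Fin 3)) = {1, 2, 2} ∨
    ({x, y, z} : Multiset (Fin 3)) = {1, 1, 2}

theorem result :
    ∃ (n : ℕ) (col : Fin n → Fin n → Fin 3), 2 ≤ n ∧ (∀ u v, col u v = col v u) ∧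
      (∀ x, ∃ u v, u ≠ v ∧ col u v = x) ∧
      (∀ u v w, u ≠ v → v ≠ w → u ≠ w → ¬ Forbidden (col u v) (col v w) (col u w)) ∧
      (∀ u v, u ≠ v → ∀ y z, ¬ Forbidden (col u v) y z →
        ∃ w, w ≠ u ∧ w ≠ v ∧ col u w = y ∧ col w v = z) := by
  have hF : ∀ x y z, Forbidden x y z ↔ (x ≠ 0 ∧ y ≠ 0 ∧ z ≠ 0 ∧ (x = 2 ∨ y = 2 ∨ z = 2)) := by
    unfold Forbidden; decide
  obtain ⟨n, col, hn, h1, h2, h3⟩ := Pool.Agent.H.MP_793ea6_al.main Forbidden hF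
  refine ⟨n, col, hn, h1, fun x => ?_, h2, h3⟩
  obtain ⟨w, hw, -, h4, -⟩ := h3 ⟨0, by omega⟩ ⟨1, by omega⟩ (by simp) x 0
    (by rw [hF]; simp)
  exact ⟨_, w, hw.symm, h4⟩

end Pool.Agent.Results.MP_793ea6_al.FiniteRep
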